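import Mathlib
import Pool.Agent.Q167.SL.StmB

/-!
# Project SL2, common part of the jobs SL-TA and SL-TV
-/

set_option autoImplicit false

open MeasureTheory Filter Topology

namespace Pool.Agent.Q176.SL.TAC

open Pool.Agent.TH41.BL (QBG vS)
open Pool.Agent.Q167.SL

/-! ### Asymptotics -/

lemma poly_le_exp (e A : ℝ) (he : 0 < e) : ∃ n₀ : ℕ, ∀ n : ℕ, n₀ ≤ n →
    A * ((n : ℝ) + 1) ^ 2 ≤ Real.exp (e * n) := by
  have h1 : Tendsto (fun x : ℝ => Real.exp x / x ^ 3) atTop atTop :=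
    Real.tendsto_exp_div_pow_atTop 3
  have h2 : Tendsto (fun n : ℕ => e * (n : ℝ)) atTop atTop :=
    (tendsto_natCast_atTop_atTop).const_mul_atTop he
  have h3 := (h1.comp h2).eventually_ge_atTop 1
  have h4 : ∀ᶠ n : ℕ in atTop, 4 * |A| / e ^ 3 + 1 ≤ (n : ℝ) :=
    tendsto_natCast_atTop_atTop.eventually_ge_atTop _
  obtain ⟨n₀, hn₀⟩ := (h3.and h4).exists_forall_of_atTop
  refine ⟨n₀, fun n hn => ?_⟩
  obtain ⟨h5, h6⟩ := hn₀ n hn
  have hpos : 0 ≤ 4 * |A| / e ^ 3 := by positivity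
  have hn1 : (1 : ℝ) ≤ n := by linarith
  have h7 : (e * n) ^ 3 ≤ Real.exp (e * n) := by
    simp only [Function.comp] at h5
    rwa [le_div_iff₀ (by positivity), one_mul] at h5
  refine le_trans ?_ h7
  have h8 : 4 * |A| ≤ e ^ 3 * n := by
    have : 4 * |A| / e ^ 3 ≤ n := by linarith
    rw [div_le_iff₀ (by positivity)] at this
    linarith
  calc A * ((n : ℝ) + 1) ^ 2 ≤ |A| * ((n : ℝ) + n) ^ 2 := by
        gcongr
        exact le_abs_self A
    _ = 4 * |A| * n ^ 2 := by ring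
    _ ≤ (e ^ 3 * n) * n ^ 2 := by gcongr
    _ = (e * n) ^ 3 := by ring

lemma const_le_exp (e A : ℝ) (he : 0 < e) : ∃ n₀ : ℕ, ∀ n : ℕ, n₀ ≤ n →
    A ≤ Real.exp (e * n) := by
  obtain ⟨n₀, h⟩ := poly_le_exp e |A| he
  refine ⟨n₀, fun n hn => le_trans ?_ (h n hn)⟩
  have : (1 : ℝ) ≤ ((n : ℝ) + 1) ^ 2 := by
    have : (0 : ℝ) ≤ n := Nat.cast_nonneg n
    nlinarith
  calc A ≤ |A| := le_abs_self A
    _ = |A| * 1 := (mul_one _).symm
    _ ≤ _ := by gcongr

/-- `A exp (-e n) ≤ B exp (-e' n)` eventually, for `e' < e`, `B > 0` -/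
lemma exp_cmp (e e' A B : ℝ) (he : e' < e) (hB : 0 < B) : ∃ n₀ : ℕ, ∀ n : ℕ, n₀ ≤ n →
    A * Real.exp (-e * n) ≤ B * Real.exp (-e' * n) := by
  obtain ⟨n₀, h⟩ := const_le_exp (e - e') (A / B) (by linarith)
  refine ⟨n₀, fun n hn => ?_⟩
  have h1 := h n hn
  rw [div_le_iff₀ hB] at h1
  calc A * Real.exp (-e * n) ≤ Real.exp ((e - e') * n) * B * Real.exp (-e * n) := by gcongr
    _ = B * (Real.exp ((e - e') * n) * Real.exp (-e * n)) := by ring
    _ = B * Real.exp (-e' * n) := by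
        rw [← Real.exp_add]
        congr 2
        ring

/-! ### The dual size -/

lemma Bd_mono {n : ℕ} {r D D' : ℝ} {u : ℝ → ℂ} (hD : 0 < D) (hDD : D ≤ D') (h : Bd n r D u) :
    Bd n r D' u := by
  intro g hg hp
  have h1 := h g hg hp
  have h2 : 0 ≤ D * (g 1 * vs n r ^ 2) := by
    rw [← mul_assoc]
    exact (norm_nonneg _).trans h1
  have h3 : 0 ≤ g 1 * vs n r ^ 2 := nonneg_of_mul_nonneg_right h2 hD
  calc ‖pr n r g u‖ ≤ D * g 1 * vs n r ^ 2 := h1
    _ = D * (g 1 * vs n r ^ 2) := by ring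
    _ ≤ D' * (g 1 * vs n r ^ 2) := by gcongr
    _ = D' * g 1 * vs n r ^ 2 := by ring

lemma pr_mul (n : ℕ) (r : ℝ) (g : ℝ → ℝ) (u : ℝ → ℂ) (z : ℂ) :
    pr n r g (fun τ => z * u τ) = z * pr n r g u := by
  unfold pr
  rw [← integral_const_mul]
  congr 1
  funext x
  rw [← integral_const_mul]
  congr 1
  funext y
  ring

lemma Bd_mul {n : ℕ} {r D : ℝ} {u : ℝ → ℂ} {z : ℂ} (hz : ‖z‖ = 1) (h : Bd n r D u) :
    Bd n r D (fun τ => z * u τ) := by
  intro g hg hp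
  rw [pr_mul, norm_mul, hz, one_mul]
  exact h g hg hp

/-! ### The strip kernel -/

section ker

variable {η R : ℝ} {σ P t : ℂ → ℂ}

lemma dσ_even (h : SKer η R σ P t) (s : ℂ) : deriv σ (-s) = deriv σ s := by
  have h1 : (fun x => σ (-x)) = fun x => -σ x := funext h.s_odd
  have h2 := congrArg (fun f => deriv f s) h1
  simp only [deriv_comp_neg] at h2
  have h3 : deriv (fun x => -σ x) s = -deriv σ s := deriv.fun_neg
  rw [h3] at h2
  exact neg_injective h2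

lemma dσ_conj (h : SKer η R σ P t) (s : ℂ) :
    deriv σ ((starRingEnd ℂ) s) = (starRingEnd ℂ) (deriv σ s) := by
  have h1 : ((starRingEnd ℂ) ∘ σ ∘ (starRingEnd ℂ)) = σ := by
    funext x
    simp only [Function.comp]
    rw [h.s_conj x, Complex.conj_conj]
  have h2 := deriv_conj_conj (f := σ)
  rw [h1] at h2
  have h3 := congrFun h2 s
  simp only [Function.comp] at h3
  rw [h3, Complex.conj_conj]

lemma conj_im (φ : ℝ) : (starRingEnd ℂ) ((φ : ℂ) * Complex.I) = -((φ : ℂ) * Complex.I) := by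
  simp

lemma dσ_im (h : SKer η R σ P t) (φ : ℝ) : (deriv σ (φ * Complex.I)).im = 0 := by
  have h1 := dσ_conj h (φ * Complex.I)
  rw [conj_im, dσ_even h] at h1
  exact Complex.conj_eq_iff_im.mp h1.symm

lemma t_im (h : SKer η R σ P t) (φ : ℝ) : (t (φ * Complex.I)).im = 0 := by
  have h1 := h.t_conj (φ * Complex.I)
  rw [conj_im, h.t_even] at h1
  exact Complex.conj_eq_iff_im.mp h1.symm

lemma P0 (h : SKer η R σ P t) : P 0 = 0 := by
  have := h.P_odd 0
  rw [neg_zero] at this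
  linear_combination (1 / 2 : ℂ) * this

lemma hopen (η : ℝ) : IsOpen {s : ℂ | |s.re| < η} :=
  isOpen_lt (continuous_abs.comp Complex.continuous_re) continuous_const

lemma dσ_diff (h : SKer η R σ P t) : DifferentiableOn ℂ (deriv σ) {s : ℂ | |s.re| < η} := by
  have h1 : DifferentiableOn ℂ σ {s : ℂ | |s.re| < η} := fun s hs =>
    (h.ds s hs).differentiableWithinAt
  exact h1.deriv (hopen η)

lemma dσ_cont (h : SKer η R σ P t) (s : ℂ) (hs : |s.re| < η) : ContinuousAt (deriv σ) s :=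
  ((dσ_diff h).differentiableAt ((hopen η).mem_nhds hs)).continuousAt

lemma hderivL (h : SKer η R σ P t) (τ : ℝ) (s : ℂ) (hs : |s.re| < η) :
    HasDerivAt (fun s => σ s * τ + P s) (deriv σ s * (τ - t s)) s := by
  have h1 := ((h.ds s hs).hasDerivAt.mul_const (τ : ℂ)).fun_add (h.dP s hs)
  have e : deriv σ s * (τ : ℂ) + -(deriv σ s * t s) = deriv σ s * (τ - t s) := by ring
  rw [e] at h1
  exact h1

lemma compact_rect (a b : ℝ) : IsCompact {s : ℂ | |s.re| ≤ a ∧ |s.im| ≤ b} := by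
  have h1 : IsCompact ((Set.Icc (-a) a) ×ℂ (Set.Icc (-b) b)) := isCompact_Icc.reProdIm isCompact_Icc
  have e : {s : ℂ | |s.re| ≤ a ∧ |s.im| ≤ b} = (Set.Icc (-a) a) ×ℂ (Set.Icc (-b) b) := by
    ext s
    simp only [Set.mem_ofPred_eq, Complex.mem_reProdIm, Set.mem_Icc, abs_le]
  rw [e]
  exact h1

/-- the bounds `QBG` of the kernels of a strip kernel, uniformly in `τ` -/
lemma qk (hqba : S_qba) (h : SKer η R σ P t) (T : ℝ) (hT : 0 < T) :
    ∃ C κ : ℝ, 0 < C ∧ 0 < κ ∧ κ ≤ Real.pi / 16 ∧ ∀ τ : ℝ, |τ| ≤ 1 → ∀ n : ℕ, 0 < n →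
      ∃ g : ℝ → ℝ, QBG (fun s => Complex.exp (n * (σ s * τ + P s))) g
        (fun φ => (deriv σ (φ * Complex.I)).re * (τ - (t (φ * Complex.I)).re))
        ((deriv σ 0).re * (τ - (t 0).re)) T C κ n := by
  have hη := h.eta_pos
  -- bounds on a compact rectangle
  set K : Set ℂ := {s : ℂ | |s.re| ≤ η / 2 ∧ |s.im| ≤ T + η / 2} with hK
  have hKc : IsCompact K := compact_rect _ _
  have hKs : ∀ s ∈ K, |s.re| < η := fun s hs => lt_of_le_of_lt hs.1 (by linarith)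
  obtain ⟨M₁, hM₁⟩ := hKc.exists_bound_of_continuousOn (f := deriv σ)
    (fun s hs => (dσ_cont h s (hKs s hs)).continuousWithinAt)
  obtain ⟨M₂, hM₂⟩ := hKc.exists_bound_of_continuousOn (f := t)
    (fun s hs => (h.dt s (hKs s hs)).continuousAt.continuousWithinAt)
  set M : ℝ := |M₁| * (1 + |M₂|) + 1 with hM
  have hM0 : 0 < M := by positivity
  obtain ⟨C, κ, hC, hκ, _, hκ2, H⟩ := hqba M (η / 2) T hM0 (by positivity) hT
  refine ⟨C, κ, hC, hκ, hκ2, ?_⟩
  intro τ hτ n hn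
  have hd : ∀ s : ℂ, |s.re| < η → deriv (fun s => σ s * τ + P s) s = deriv σ s * (τ - t s) :=
    fun s hs => (hderivL h τ s hs).deriv
  have H1 := H (fun s => σ s * τ + P s)
    (fun s hs => (hderivL h τ s (by linarith)).differentiableAt)
    (fun s hs1 hs2 => by
      have hsK : s ∈ K := ⟨hs1.le, hs2.le⟩
      rw [hd s (hKs s hsK), norm_mul]
      have h1 : ‖deriv σ s‖ ≤ |M₁| := (hM₁ s hsK).trans (le_abs_self _)
      have h2 : ‖(τ : ℂ) - t s‖ ≤ 1 + |M₂| := by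
        refine (norm_sub_le _ _).trans (add_le_add ?_ ((hM₂ s hsK).trans (le_abs_self _)))
        rw [Complex.norm_real, Real.norm_eq_abs]
        exact hτ
      calc ‖deriv σ s‖ * ‖(τ : ℂ) - t s‖ ≤ |M₁| * (1 + |M₂|) := by gcongr
        _ ≤ M := by linarith)
    (fun s => by rw [h.s_odd, h.P_odd]; ring)
    (fun s => by rw [h.s_conj, h.P_conj]; simp)
    (fun φ => by
      simp only [Complex.add_re, Complex.mul_re, Complex.ofReal_re, Complex.ofReal_im, mul_zero,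
        sub_zero]
      rw [h.s_im, h.P_im]
      simp) n hn
  refine ⟨fun x => (deriv (fun s => σ s * τ + P s) x).re, ?_⟩
  have e1 : (fun φ : ℝ => (deriv (fun s => σ s * τ + P s) (φ * Complex.I)).re) =
      (fun φ : ℝ => (deriv σ (φ * Complex.I)).re * (τ - (t (φ * Complex.I)).re)) := by
    funext φ
    rw [hd _ (by simpa using hη), Complex.mul_re, dσ_im h φ]
    simp
  have e2 : (deriv (fun s => σ s * τ + P s) 0).re = (deriv σ 0).re * (τ - (t 0).re) := by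
    have := congrFun e1 0
    simp only [Complex.ofReal_zero, zero_mul] at this
    exact this
  rw [e1, e2] at H1
  exact H1

/-- the value on the imaginary axis -/
lemma Q_im (h : SKer η R σ P t) (n : ℕ) (φ τ : ℝ) :
    Complex.exp (-(n * P (φ * Complex.I))) *
      Complex.exp (n * (σ (φ * Complex.I) * τ + P (φ * Complex.I))) =
      Complex.exp (((n * (σ (φ * Complex.I)).im * τ : ℝ) : ℂ) * Complex.I) := by
  rw [← Complex.exp_add]
  congr 1
  have e : σ (φ * Complex.I) = (σ (φ * Complex.I)).im * Complex.I := by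
    apply Complex.ext
    · simp [h.s_im φ]
    · simp
  rw [e]
  push_cast
  simp only [Complex.mul_im, Complex.ofReal_re, Complex.I_im, Complex.ofReal_im, Complex.I_re,
    mul_one, mul_zero, add_zero]
  ring

lemma norm_expP (h : SKer η R σ P t) (n : ℕ) (φ : ℝ) :
    ‖Complex.exp (-(n * P (φ * Complex.I)))‖ = 1 := by
  rw [Complex.norm_exp]
  simp [h.P_im φ]

end ker

/-! ### Landau's inequality, with exponentials -/

lemma lan_step (hbl : S_blan) (e ℓ K : ℝ) (he : 0 < e) (hℓ : 0 < ℓ) :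
    ∃ n₀ : ℕ, ∀ n : ℕ, n₀ ≤ n → ∀ (a b : ℝ) (f f₁ f₂ : ℝ → ℂ), ℓ ≤ b - a →
      (∀ τ, HasDerivAt f (f₁ τ) τ) → (∀ τ, HasDerivAt f₁ (f₂ τ) τ) →
      (∀ τ ∈ Set.Icc a b, ‖f τ‖ ≤ 2 * Real.exp (-e * n)) →
      (∀ τ ∈ Set.Icc a b, ‖f₂ τ‖ ≤ K * ((n : ℝ) + 1) ^ 2 * Real.exp (e / 8 * n)) →
      ∀ τ ∈ Set.Icc a b, ‖f₁ τ‖ ≤ Real.exp (-(e / 4) * n) := by
  obtain ⟨n₁, h₁⟩ := exp_cmp (e / 2) 0 1 (ℓ / 2) (by positivity) (by positivity)
  obtain ⟨n₂, h₂⟩ := exp_cmp (e / 2) (e / 4) 4 (1 / 2) (by linarith) (by positivity)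
  obtain ⟨n₃, h₃⟩ := poly_le_exp (e / 8) (2 * K) (by positivity)
  refine ⟨max n₁ (max n₂ n₃), ?_⟩
  intro n hn a b f f₁ f₂ hab hf hf₁ hA hA₂ τ hτ
  have hn1 : n₁ ≤ n := (le_max_left _ _).trans hn
  have hn2 : n₂ ≤ n := ((le_max_left _ _).trans (le_max_right _ _)).trans hn
  have hn3 : n₃ ≤ n := ((le_max_right _ _).trans (le_max_right _ _)).trans hn
  have hh : Real.exp (-(e / 2) * n) ≤ (b - a) / 2 := by
    have := h₁ n hn1
    rw [neg_zero, zero_mul, Real.exp_zero, mul_one, one_mul] at this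
    linarith
  have h := hbl a b (2 * Real.exp (-e * n)) (K * ((n : ℝ) + 1) ^ 2 * Real.exp (e / 8 * n))
    (Real.exp (-(e / 2) * n)) f f₁ f₂ (Real.exp_pos _) hh hf hf₁ hA hA₂ τ hτ
  refine h.trans ?_
  have e1 : 2 * (2 * Real.exp (-e * n)) / Real.exp (-(e / 2) * n) =
      4 * Real.exp (-(e / 2) * n) := by
    rw [div_eq_iff (Real.exp_pos _).ne']
    have : Real.exp (-e * n) = Real.exp (-(e / 2) * n) * Real.exp (-(e / 2) * n) := by
      rw [← Real.exp_add]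
      congr 1
      ring
    rw [this]
    ring
  have e2 : Real.exp (-(e / 2) * n) * (K * ((n : ℝ) + 1) ^ 2 * Real.exp (e / 8 * n)) ≤
      1 / 2 * Real.exp (-(e / 4) * n) := by
    have h4 := h₃ n hn3
    have e3 : Real.exp (-(e / 2) * n) * Real.exp (e / 8 * n) * Real.exp (e / 8 * n) =
        Real.exp (-(e / 4) * n) := by
      rw [← Real.exp_add, ← Real.exp_add]
      congr 1
      ring
    calc Real.exp (-(e / 2) * n) * (K * ((n : ℝ) + 1) ^ 2 * Real.exp (e / 8 * n))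
        = Real.exp (-(e / 2) * n) * Real.exp (e / 8 * n) * (1 / 2) *
            (2 * K * ((n : ℝ) + 1) ^ 2) := by ring
      _ ≤ Real.exp (-(e / 2) * n) * Real.exp (e / 8 * n) * (1 / 2) *
            Real.exp (e / 8 * n) := by gcongr
      _ = 1 / 2 * (Real.exp (-(e / 2) * n) * Real.exp (e / 8 * n) * Real.exp (e / 8 * n)) := by
          ring
      _ = _ := by rw [e3]
  rw [e1]
  linarith [h₂ n hn2]

end Pool.Agent.Q176.SL.TAC
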