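import Mathlib
import Pool.Agent.Q167.SL.StmB

/-!
# Project SL2, job SL-QBA: the bounds `QBG` for `exp (n L)`, uniformly in `L`
-/

set_option autoImplicit false

open MeasureTheory Filter Topology

namespace Pool.Agent.Q176.SL.QBA

open Pool.Agent.TH41.BL (QBG)
open Pool.Agent.Q167.SL

/-- the closed rectangle -/
def KR (κ T : ℝ) : Set ℂ := {s | |s.re| ≤ κ ∧ |s.im| ≤ T}

lemma KR_conv (κ T : ℝ) : Convex ℝ (KR κ T) := by
  intro x hx y hy a b ha hb hab
  obtain ⟨h1, h2⟩ := hx
  obtain ⟨h3, h4⟩ := hy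
  constructor
  · have : (a • x + b • y).re = a * x.re + b * y.re := by simp
    rw [this]
    calc |a * x.re + b * y.re| ≤ |a * x.re| + |b * y.re| := abs_add_le _ _
      _ = a * |x.re| + b * |y.re| := by rw [abs_mul, abs_mul, abs_of_nonneg ha, abs_of_nonneg hb]
      _ ≤ a * κ + b * κ := by gcongr
      _ = κ := by rw [← add_mul, hab, one_mul]
  · have : (a • x + b • y).im = a * x.im + b * y.im := by simp
    rw [this]
    calc |a * x.im + b * y.im| ≤ |a * x.im| + |b * y.im| := abs_add_le _ _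
      _ = a * |x.im| + b * |y.im| := by rw [abs_mul, abs_mul, abs_of_nonneg ha, abs_of_nonneg hb]
      _ ≤ a * T + b * T := by gcongr
      _ = T := by rw [← add_mul, hab, one_mul]

/-- first order Taylor formula -/
lemma tay {K : Set ℂ} (hK : Convex ℝ K) {f g : ℂ → ℂ} {B : ℝ} (hB : 0 ≤ B)
    (hf : ∀ s ∈ K, HasDerivAt f (g s) s) (hg : ∀ s ∈ K, ∃ g', HasDerivAt g g' s ∧ ‖g'‖ ≤ B)
    {a b : ℂ} (ha : a ∈ K) (hb : b ∈ K) :
    ‖f b - f a - (b - a) * g a‖ ≤ B * ‖b - a‖ ^ 2 := by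
  have hseg : segment ℝ a b ⊆ K := hK.segment_subset ha hb
  have hlip : ∀ z ∈ K, ‖g z - g a‖ ≤ B * ‖z - a‖ := by
    intro z hz
    exact hK.norm_image_sub_le_of_norm_deriv_le
      (fun x hx => (hg x hx).choose_spec.1.differentiableAt)
      (fun x hx => by
        rw [(hg x hx).choose_spec.1.deriv]
        exact (hg x hx).choose_spec.2) ha hz
  have hd : ∀ z ∈ segment ℝ a b, ‖z - a‖ ≤ ‖b - a‖ := by
    intro z hz
    obtain ⟨t, ht, rfl⟩ := (segment_eq_image' ℝ a b ▸ hz)
    have e : a + t • (b - a) - a = t • (b - a) := by ring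
    beta_reduce
    rw [e, norm_smul, Real.norm_of_nonneg ht.1]
    exact mul_le_of_le_one_left (norm_nonneg _) ht.2
  have h := (convex_segment a b).norm_image_sub_le_of_norm_hasDerivWithin_le
    (f := fun z => f z - z * g a) (f' := fun z => g z - g a) (C := B * ‖b - a‖)
    (fun z hz => by
      have h1 := (hf z (hseg hz)).sub ((hasDerivAt_id z).mul_const (g a))
      simp only [one_mul] at h1
      exact h1.hasDerivWithinAt)
    (fun z hz => (hlip z (hseg hz)).trans (mul_le_mul_of_nonneg_left (hd z hz) hB))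
    (left_mem_segment ℝ a b) (right_mem_segment ℝ a b)
  have e : f b - b * g a - (f a - a * g a) = f b - f a - (b - a) * g a := by ring
  rw [← e]
  refine h.trans (le_of_eq (by ring))

/-- data near the imaginary axis -/
structure LD (L D E : ℂ → ℂ) (κ T B : ℝ) : Prop where
  hL : ∀ s ∈ KR κ T, HasDerivAt L (D s) s
  hD : ∀ s ∈ KR κ T, HasDerivAt D (E s) s
  hE : ∀ s ∈ KR κ T, ∃ F, HasDerivAt E F s ∧ ‖F‖ ≤ B
  bD : ∀ s ∈ KR κ T, ‖D s‖ ≤ B
  bE : ∀ s ∈ KR κ T, ‖E s‖ ≤ B
  z : L 0 = 0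
  zE : E 0 = 0
  rL : ∀ σ : ℝ, |σ| ≤ κ → (L σ).im = 0
  rD : ∀ σ : ℝ, |σ| ≤ κ → (D σ).im = 0
  rE : ∀ σ : ℝ, |σ| ≤ κ → (E σ).im = 0
  iL : ∀ t : ℝ, (L (t * Complex.I)).re = 0

variable {L D E : ℂ → ℂ} {κ T B : ℝ}

lemma memKR {σ t : ℝ} (hσ : |σ| ≤ κ) (ht : |t| ≤ T) : ((σ : ℂ) + t * Complex.I) ∈ KR κ T := by
  constructor <;> simpa

lemma memKR' {σ : ℝ} (hT : 0 ≤ T) (hσ : |σ| ≤ κ) : (σ : ℂ) ∈ KR κ T := by
  constructor
  · simpa
  · simpa

lemma memKRi {t : ℝ} (hκ : 0 ≤ κ) (ht : |t| ≤ T) : ((t : ℂ) * Complex.I) ∈ KR κ T := by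
  constructor <;> simpa

/-- derivative of `D` at a real point: the real part changes quadratically -/
lemma reD (h : LD L D E κ T B) (hB : 0 ≤ B) (hT : 0 ≤ T) {σ t : ℝ} (hσ : |σ| ≤ κ) (ht : |t| ≤ T) :
    |(D (σ + t * Complex.I)).re - (D σ).re| ≤ B * t ^ 2 := by
  have h1 := tay (KR_conv κ T) hB h.hD h.hE (memKR' hT hσ) (memKR hσ ht)
  have e1 : (σ : ℂ) + t * Complex.I - σ = t * Complex.I := by ring
  rw [e1] at h1
  have e2 : ‖(t : ℂ) * Complex.I‖ = |t| := by simp
  rw [e2, sq_abs] at h1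
  refine le_trans ?_ h1
  refine le_trans (le_of_eq ?_) (Complex.abs_re_le_norm _)
  congr 1
  simp [h.rE σ hσ]

lemma reDσ (h : LD L D E κ T B) (hB : 0 ≤ B) (hκ : 0 ≤ κ) (hT : 0 ≤ T) {σ : ℝ} (hσ : |σ| ≤ κ) :
    |(D σ).re - (D 0).re| ≤ B * σ ^ 2 := by
  have h0 : (0 : ℂ) ∈ KR κ T := by constructor <;> simpa
  have h1 := tay (KR_conv κ T) hB h.hD h.hE h0 (memKR' hT hσ)
  rw [h.zE, mul_zero, sub_zero, sub_zero] at h1
  have e2 : ‖(σ : ℂ)‖ = |σ| := by simp
  rw [e2, sq_abs] at h1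
  refine le_trans ?_ h1
  refine le_trans (le_of_eq ?_) (Complex.abs_re_le_norm _)
  simp

/-- mean value inequality on an interval containing `0` -/
lemma mv {f f' : ℝ → ℝ} {c A : ℝ} (hf : ∀ x, |x| ≤ |c| → HasDerivAt f (f' x) x)
    (hb : ∀ x, |x| ≤ |c| → |f' x| ≤ A) : |f c - f 0| ≤ A * |c| := by
  have hconv : Convex ℝ {x : ℝ | |x| ≤ |c|} := by
    have : {x : ℝ | |x| ≤ |c|} = Set.Icc (-|c|) |c| := by
      ext x
      simp [abs_le]
    rw [this]
    exact convex_Icc _ _
  have h := hconv.norm_image_sub_le_of_norm_hasDerivWithin_le (f := f) (f' := f') (C := A)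
    (fun x hx => (hf x hx).hasDerivWithinAt) (fun x hx => by
      rw [Real.norm_eq_abs]
      exact hb x hx) (x := 0) (y := c) (show |(0 : ℝ)| ≤ |c| by simp) (show |c| ≤ |c| from le_rfl)
  simpa using h

lemma dσ (h : LD L D E κ T B) {σ t : ℝ} (hσ : |σ| ≤ κ) (ht : |t| ≤ T) :
    HasDerivAt (fun x : ℝ => (L (x + t * Complex.I)).re) (D (σ + t * Complex.I)).re σ := by
  have h1 : HasDerivAt (fun z : ℂ => L (z + t * Complex.I)) (D ((σ : ℂ) + t * Complex.I)) (σ : ℂ) :=
    HasDerivAt.comp_add_const (σ : ℂ) (t * Complex.I) (h.hL _ (memKR hσ ht))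
  exact h1.real_of_complex

lemma dt (h : LD L D E κ T B) {σ t : ℝ} (hσ : |σ| ≤ κ) (ht : |t| ≤ T) :
    HasDerivAt (fun x : ℝ => (L (σ + x * Complex.I)).im) (D (σ + t * Complex.I)).re t := by
  have h0 : HasDerivAt (fun z : ℂ => (σ : ℂ) + z * Complex.I) Complex.I (t : ℂ) := by
    have := ((hasDerivAt_id (t : ℂ)).mul_const Complex.I).const_add (σ : ℂ)
    simpa using this
  have h1 : HasDerivAt (fun z : ℂ => L ((σ : ℂ) + z * Complex.I))
      (D ((σ : ℂ) + t * Complex.I) * Complex.I) (t : ℂ) :=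
    HasDerivAt.comp (t : ℂ) (h.hL _ (memKR hσ ht)) h0
  have h2 : HasDerivAt (fun z : ℂ => -Complex.I * L ((σ : ℂ) + z * Complex.I))
      (-Complex.I * (D ((σ : ℂ) + t * Complex.I) * Complex.I)) (t : ℂ) := h1.const_mul _
  have h3 := h2.real_of_complex
  have e1 : (fun x : ℝ => (-Complex.I * L ((σ : ℂ) + (x : ℂ) * Complex.I)).re) =
      (fun x : ℝ => (L (σ + x * Complex.I)).im) := by
    funext x
    simp
  have e2 : (-Complex.I * (D ((σ : ℂ) + t * Complex.I) * Complex.I)).re =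
      (D (σ + t * Complex.I)).re := by
    have : -Complex.I * (D ((σ : ℂ) + t * Complex.I) * Complex.I) =
        -(Complex.I * Complex.I) * D ((σ : ℂ) + t * Complex.I) := by ring
    rw [this, Complex.I_mul_I]
    simp
  rw [e1, e2] at h3
  exact h3

/-- `Re L` off the axis -/
lemma reL1 (h : LD L D E κ T B) {σ t : ℝ} (hσ : |σ| ≤ κ) (ht : |t| ≤ T) :
    |(L (σ + t * Complex.I)).re| ≤ B * |σ| := by
  have h1 := mv (f := fun x : ℝ => (L (x + t * Complex.I)).re)
    (f' := fun x : ℝ => (D (x + t * Complex.I)).re) (c := σ) (A := B)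
    (fun x hx => dσ h (hx.trans hσ) ht)
    (fun x hx => (Complex.abs_re_le_norm _).trans (h.bD _ (memKR (hx.trans hσ) ht)))
  have e : (L (((0 : ℝ) : ℂ) + t * Complex.I)).re = 0 := by
    simp only [Complex.ofReal_zero, zero_add]
    exact h.iL t
  simp only [e, sub_zero] at h1
  exact h1

lemma reL2 (h : LD L D E κ T B) (hB : 0 ≤ B) (hT : 0 ≤ T) {σ t : ℝ} (hσ : |σ| ≤ κ)
    (ht : |t| ≤ T) :
    |(L (σ + t * Complex.I)).re - (L σ).re| ≤ B * t ^ 2 * |σ| := by
  have hT0 : |(0 : ℝ)| ≤ T := by simpa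
  have h1 := mv (f := fun x : ℝ => (L (x + t * Complex.I)).re - (L (x + (0 : ℝ) * Complex.I)).re)
    (f' := fun x : ℝ => (D (x + t * Complex.I)).re - (D (x + (0 : ℝ) * Complex.I)).re)
    (c := σ) (A := B * t ^ 2)
    (fun x hx => (dσ h (hx.trans hσ) ht).sub (dσ h (hx.trans hσ) hT0))
    (fun x hx => by
      have := reD h hB hT (hx.trans hσ) ht
      simpa using this)
  have e : (L (((0 : ℝ) : ℂ) + t * Complex.I)).re = 0 := by
    simp only [Complex.ofReal_zero, zero_add]
    exact h.iL t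
  have e' : (L (((0 : ℝ) : ℂ) + ((0 : ℝ) : ℂ) * Complex.I)).re = 0 := by
    simp [h.z]
  simp only [e, e', sub_zero] at h1
  simpa using h1

lemma imL (h : LD L D E κ T B) (hB : 0 ≤ B) (hT : 0 ≤ T) {σ t : ℝ} (hσ : |σ| ≤ κ)
    (ht : |t| ≤ T) :
    |(L (σ + t * Complex.I)).im - (D σ).re * t| ≤ B * |t| ^ 3 := by
  have h1 := mv (f := fun x : ℝ => (L (σ + x * Complex.I)).im - (D σ).re * x)
    (f' := fun x : ℝ => (D (σ + x * Complex.I)).re - (D σ).re)
    (c := t) (A := B * |t| ^ 2)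
    (fun x hx => by
      have := (dt h hσ (hx.trans ht)).fun_sub ((hasDerivAt_id x).const_mul (D σ).re)
      simpa using this)
    (fun x hx => by
      refine (reD h hB hT hσ (hx.trans ht)).trans ?_
      rw [← sq_abs x]
      gcongr)
  have e : (L ((σ : ℂ) + ((0 : ℝ) : ℂ) * Complex.I)).im = 0 := by
    simp [h.rL σ hσ]
  simp only [e, mul_zero, sub_zero] at h1
  refine h1.trans (le_of_eq (by ring))

lemma reL3 (h : LD L D E κ T B) (hB : 0 ≤ B) (hκ : 0 ≤ κ) {σ t : ℝ} (hσ : |σ| ≤ κ)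
    (ht : |t| ≤ T) :
    (L (σ + t * Complex.I)).re ≤ σ * (D (t * Complex.I)).re + B * σ ^ 2 := by
  have hg : ∀ s ∈ KR κ T, ∃ g', HasDerivAt D g' s ∧ ‖g'‖ ≤ B := fun s hs =>
    ⟨E s, h.hD s hs, h.bE s hs⟩
  have h1 := tay (KR_conv κ T) hB h.hL hg (memKRi hκ ht) (memKR hσ ht)
  have e1 : (σ : ℂ) + t * Complex.I - t * Complex.I = σ := by ring
  rw [e1] at h1
  have e2 : ‖(σ : ℂ)‖ = |σ| := by simp
  rw [e2, sq_abs] at h1
  have h2 := (Complex.abs_re_le_norm _).trans h1
  have e3 : (L (σ + t * Complex.I) - L (t * Complex.I) - (σ : ℂ) * D (t * Complex.I)).re =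
      (L (σ + t * Complex.I)).re - σ * (D (t * Complex.I)).re := by
    simp [h.iL t]
  rw [e3] at h2
  have := (abs_le.mp h2).2
  linarith

lemma reL4 (h : LD L D E κ T B) (hB : 0 ≤ B) (hκ : 0 ≤ κ) (hT : 0 ≤ T) {σ : ℝ} (hσ : |σ| ≤ κ) :
    (L σ).re ≤ (D 0).re * σ + B * |σ| ^ 3 := by
  have hT0 : |(0 : ℝ)| ≤ T := by simpa
  have h1 := mv (f := fun x : ℝ => (L (x + (0 : ℝ) * Complex.I)).re - (D 0).re * x)
    (f' := fun x : ℝ => (D (x + (0 : ℝ) * Complex.I)).re - (D 0).re)
    (c := σ) (A := B * |σ| ^ 2)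
    (fun x hx => by
      have := (dσ h (hx.trans hσ) hT0).fun_sub ((hasDerivAt_id x).const_mul (D 0).re)
      simpa using this)
    (fun x hx => by
      have := reDσ h hB hκ hT (hx.trans hσ)
      simp only [Complex.ofReal_zero, zero_mul, add_zero]
      refine this.trans ?_
      rw [← sq_abs x]
      gcongr)
  have e' : (L (((0 : ℝ) : ℂ) + ((0 : ℝ) : ℂ) * Complex.I)).re = 0 := by
    simp [h.z]
  simp only [e', mul_zero, sub_zero] at h1
  simp only [Complex.ofReal_zero, zero_mul, add_zero] at h1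
  have := (abs_le.mp h1).2
  have e4 : B * |σ| ^ 2 * |σ| = B * |σ| ^ 3 := by ring
  rw [e4] at this
  linarith

lemma nrmQ (n : ℕ) (w : ℂ) : ‖Complex.exp (n * w)‖ = Real.exp (n * w.re) := by
  rw [Complex.norm_exp]
  congr 1
  simp

/-- the bounds from the data -/
lemma qbg_of (h : LD L D E κ T B) (hB : 0 ≤ B) (hκ : 0 ≤ κ) (hT : 0 ≤ T) (n : ℕ) (C : ℝ)
    (hC : B ≤ C) :
    QBG (fun s => Complex.exp (n * L s)) (fun x => (D x).re)
      (fun t => (D (t * Complex.I)).re) (D 0).re T C κ n where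
  mz := by simp [h.z]
  m0 := by
    intro t _
    rw [nrmQ, h.iL t]
    simp
  m1 := by
    intro σ hσ
    have e : (L σ) = (((L σ).re : ℝ) : ℂ) := by
      apply Complex.ext
      · simp
      · simp [h.rL σ hσ]
    have e2 : Complex.exp (n * L σ) = ((Real.exp (n * (L σ).re) : ℝ) : ℂ) := by
      rw [e]
      push_cast
      simp
    simp only [e2]
    exact ⟨Complex.ofReal_im _, by rw [Complex.ofReal_re]; exact Real.exp_pos _⟩
  m2 := by
    intro σ t hσ ht
    rw [nrmQ]
    apply Real.exp_le_exp.mpr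
    have h1 := (abs_le.mp (reL1 h hσ ht)).2
    calc (n : ℝ) * (L (σ + t * Complex.I)).re ≤ n * (B * |σ|) := by gcongr
      _ ≤ n * (C * |σ|) := by gcongr
      _ = C * n * |σ| := by ring
  m3 := by
    intro σ t hσ ht
    rw [nrmQ, nrmQ, ← Real.exp_add]
    apply Real.exp_le_exp.mpr
    have h1 := (abs_le.mp (reL2 h hB hT hσ ht)).2
    have h2 : (L (σ + t * Complex.I)).re ≤ (L σ).re + B * t ^ 2 * |σ| := by linarith
    calc (n : ℝ) * (L (σ + t * Complex.I)).re ≤ n * ((L σ).re + B * t ^ 2 * |σ|) := by gcongr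
      _ ≤ n * ((L σ).re + C * t ^ 2 * |σ|) := by gcongr
      _ = n * (L σ).re + C * n * |σ| * t ^ 2 := by ring
  m4 := by
    intro σ t hσ ht
    rw [nrmQ, nrmQ, ← Real.exp_add]
    apply Real.exp_le_exp.mpr
    have h1 := (abs_le.mp (reL2 h hB hT hσ ht)).1
    have h2 : (L σ).re - B * t ^ 2 * |σ| ≤ (L (σ + t * Complex.I)).re := by linarith
    have h3 : B * t ^ 2 * |σ| ≤ C * t ^ 2 * |σ| := by gcongr
    calc n * (L σ).re + -(C * n * |σ| * t ^ 2) = n * ((L σ).re - C * t ^ 2 * |σ|) := by ring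
      _ ≤ n * ((L σ).re - B * t ^ 2 * |σ|) := by gcongr
      _ ≤ (n : ℝ) * (L (σ + t * Complex.I)).re := by gcongr
  m5 := by
    intro σ t hσ ht
    refine ⟨n * (L (σ + t * Complex.I)).im - n * (D σ).re * t, ?_, ?_⟩
    · have h1 := imL h hB hT hσ ht
      have e : (n : ℝ) * (L (σ + t * Complex.I)).im - n * (D σ).re * t =
          n * ((L (σ + t * Complex.I)).im - (D σ).re * t) := by ring
      rw [e, abs_mul, abs_of_nonneg (Nat.cast_nonneg n : (0 : ℝ) ≤ n)]
      calc (n : ℝ) * |(L (σ + t * Complex.I)).im - (D σ).re * t| ≤ n * (B * |t| ^ 3) := by gcongr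
        _ ≤ n * (C * |t| ^ 3) := by gcongr
        _ = C * n * |t| ^ 3 := by ring
    · have e1 : (n : ℝ) * (D σ).re * t + (n * (L (σ + t * Complex.I)).im - n * (D σ).re * t) =
          n * (L (σ + t * Complex.I)).im := by ring
      rw [e1, nrmQ]
      push_cast
      rw [← Complex.exp_add]
      congr 1
      have e2 := (Complex.re_add_im (L (σ + t * Complex.I)))
      calc (n : ℂ) * L (σ + t * Complex.I) = n * (((L (σ + t * Complex.I)).re : ℂ) +
            (L (σ + t * Complex.I)).im * Complex.I) := by rw [e2]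
        _ = _ := by ring
  m6 := by
    intro σ t hσ ht
    rw [nrmQ]
    apply Real.exp_le_exp.mpr
    have h1 := reL3 h hB hκ hσ ht
    have h2 : B * σ ^ 2 ≤ C * σ ^ 2 := by gcongr
    gcongr
    linarith
  m7 := by
    intro σ hσ
    rw [nrmQ]
    apply Real.exp_le_exp.mpr
    have h1 := reL4 h hB hκ hT hσ
    have h2 : B * |σ| ^ 3 ≤ C * |σ| ^ 3 := by gcongr
    gcongr
    linarith
  m8 := by
    intro σ hσ
    refine (reDσ h hB hκ hT hσ).trans ?_
    gcongr
  m9 := by
    intro x hx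
    have hx' : |x| ≤ κ := abs_le.mpr ⟨hx.1, hx.2⟩
    have h1 : ContinuousAt D (x : ℂ) := (h.hD _ (memKR' hT hx')).continuousAt
    have h2 : ContinuousAt (fun y : ℝ => D (y : ℂ)) x :=
      ContinuousAt.comp (f := fun y : ℝ => (y : ℂ)) (g := D) h1
        Complex.continuous_ofReal.continuousAt
    exact (Complex.continuous_re.continuousAt.comp h2).continuousWithinAt
  m10 := by
    intro s h1 h2
    exact ((h.hL s ⟨h1, h2⟩).differentiableAt.const_mul _).cexp
  m11 := by
    intro t t' ht ht'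
    have h1 := (KR_conv κ T).norm_image_sub_le_of_norm_deriv_le (f := D) (C := B)
      (fun x hx => (h.hD x hx).differentiableAt)
      (fun x hx => by
        rw [(h.hD x hx).deriv]
        exact h.bE x hx) (memKRi hκ ht') (memKRi hκ ht)
    have e : ‖(t : ℂ) * Complex.I - t' * Complex.I‖ = |t - t'| := by
      rw [← sub_mul, norm_mul, Complex.norm_I, mul_one, ← Complex.ofReal_sub, Complex.norm_real,
        Real.norm_eq_abs]
    rw [e] at h1
    have h2 := (Complex.abs_re_le_norm _).trans h1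
    simp only [Complex.sub_re] at h2
    refine h2.trans ?_
    gcongr
  m12 := by simp

lemma cauchy {f : ℂ → ℂ} {A r : ℝ} (hr : 0 < r) {c : ℂ}
    (hd : ∀ z : ℂ, ‖z - c‖ ≤ r → DifferentiableAt ℂ f z) (hb : ∀ z : ℂ, ‖z - c‖ ≤ r → ‖f z‖ ≤ A) :
    ‖deriv f c‖ ≤ A / r := by
  apply Complex.norm_deriv_le_of_forall_mem_sphere_norm_le hr
  · apply DifferentiableOn.diffContOnCl
    rw [closure_ball c hr.ne']
    intro z hz
    exact (hd z (by rwa [Metric.mem_closedBall, dist_eq_norm] at hz)).differentiableWithinAt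
  · intro z hz
    apply hb z
    rw [Metric.mem_sphere, dist_eq_norm] at hz
    exact hz.le

theorem qba : S_qba := by
  intro M κ₀ T hM hκ₀ hT
  set κ : ℝ := min (κ₀ / 4) (Real.pi / 16) with hκdef
  have hκ : 0 < κ := lt_min (by positivity) (by positivity)
  have hκ1 : κ ≤ κ₀ / 4 := min_le_left _ _
  set r : ℝ := κ₀ / 4 with hr
  have hr0 : 0 < r := by positivity
  set B : ℝ := M + M / r + M / r / r with hBdef
  have hB : 0 < B := by positivity
  refine ⟨B, κ, hB, hκ, by linarith, min_le_right _ _, ?_⟩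
  intro L hL hbd hodd hconj him n hn
  -- differentiability of the derivatives
  have hopen : IsOpen {s : ℂ | |s.re| < κ₀} :=
    isOpen_lt (continuous_abs.comp Complex.continuous_re) continuous_const
  have hLd : DifferentiableOn ℂ L {s : ℂ | |s.re| < κ₀} := fun s hs =>
    (hL s hs).differentiableWithinAt
  have hDd : DifferentiableOn ℂ (deriv L) {s : ℂ | |s.re| < κ₀} := hLd.deriv hopen
  have hEd : DifferentiableOn ℂ (deriv (deriv L)) {s : ℂ | |s.re| < κ₀} := hDd.deriv hopen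
  have hD : ∀ s : ℂ, |s.re| < κ₀ → DifferentiableAt ℂ (deriv L) s := fun s hs =>
    hDd.differentiableAt (hopen.mem_nhds hs)
  have hE : ∀ s : ℂ, |s.re| < κ₀ → DifferentiableAt ℂ (deriv (deriv L)) s := fun s hs =>
    hEd.differentiableAt (hopen.mem_nhds hs)
  -- symmetries of the derivative
  have hDeven : ∀ s, deriv L (-s) = deriv L s := by
    intro s
    have h1 : (fun x => L (-x)) = fun x => -L x := funext hodd
    have h2 := congrArg (fun f => deriv f s) h1
    simp only [deriv_comp_neg] at h2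
    have h3 : deriv (fun x => -L x) s = -deriv L s := by
      exact deriv.fun_neg
    rw [h3] at h2
    exact neg_injective h2
  have hEodd : ∀ s, deriv (deriv L) (-s) = -deriv (deriv L) s := by
    intro s
    have h1 : (fun x => deriv L (-x)) = fun x => deriv L x := funext hDeven
    have h2 := congrArg (fun f => deriv f s) h1
    simp only [deriv_comp_neg] at h2
    rw [← h2, neg_neg]
  have hDc : ∀ s, deriv L ((starRingEnd ℂ) s) = (starRingEnd ℂ) (deriv L s) := by
    intro s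
    have h1 : ((starRingEnd ℂ) ∘ L ∘ (starRingEnd ℂ)) = L := by
      funext x
      simp only [Function.comp]
      rw [hconj x, Complex.conj_conj]
    have h2 := deriv_conj_conj (f := L)
    rw [h1] at h2
    have h3 := congrFun h2 s
    simp only [Function.comp] at h3
    rw [h3, Complex.conj_conj]
  have hEc : ∀ s, deriv (deriv L) ((starRingEnd ℂ) s) = (starRingEnd ℂ) (deriv (deriv L) s) := by
    intro s
    have h1 : ((starRingEnd ℂ) ∘ (deriv L) ∘ (starRingEnd ℂ)) = deriv L := by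
      funext x
      simp only [Function.comp]
      rw [hDc x, Complex.conj_conj]
    have h2 := deriv_conj_conj (f := deriv L)
    rw [h1] at h2
    have h3 := congrFun h2 s
    simp only [Function.comp] at h3
    rw [h3, Complex.conj_conj]
  have real_of : ∀ (f : ℂ → ℂ), (∀ s, f ((starRingEnd ℂ) s) = (starRingEnd ℂ) (f s)) →
      ∀ σ : ℝ, (f σ).im = 0 := by
    intro f hf σ
    have h1 := hf (σ : ℂ)
    rw [Complex.conj_ofReal] at h1
    exact Complex.conj_eq_iff_im.mp h1.symm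
  -- Cauchy
  have hDb : ∀ s : ℂ, |s.re| < κ₀ → |s.im| < T + κ₀ → ‖deriv L s‖ ≤ M := hbd
  have near : ∀ (z c : ℂ) (a b : ℝ), ‖z - c‖ ≤ r → |c.re| ≤ a → |c.im| ≤ b →
      |z.re| ≤ a + r ∧ |z.im| ≤ b + r := by
    intro z c a b h h1 h2
    have h3 := (Complex.abs_re_le_norm (z - c)).trans h
    have h4 := (Complex.abs_im_le_norm (z - c)).trans h
    simp only [Complex.sub_re, Complex.sub_im] at h3 h4
    constructor
    · calc |z.re| = |c.re + (z.re - c.re)| := by ring_nf
        _ ≤ |c.re| + |z.re - c.re| := abs_add_le _ _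
        _ ≤ a + r := add_le_add h1 h3
    · calc |z.im| = |c.im + (z.im - c.im)| := by ring_nf
        _ ≤ |c.im| + |z.im - c.im| := abs_add_le _ _
        _ ≤ b + r := add_le_add h2 h4
  have hEb : ∀ s : ℂ, |s.re| ≤ 2 * r → |s.im| ≤ T + 2 * r → ‖deriv (deriv L) s‖ ≤ M / r := by
    intro s h1 h2
    apply cauchy hr0
    · intro z hz
      have := near z s _ _ hz h1 h2
      exact hD z (by linarith [this.1, hr])
    · intro z hz
      have := near z s _ _ hz h1 h2
      exact hDb z (by linarith [this.1, hr]) (by linarith [this.2, hr])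
  have hFb : ∀ s : ℂ, |s.re| ≤ r → |s.im| ≤ T + r → ‖deriv (deriv (deriv L)) s‖ ≤ M / r / r := by
    intro s h1 h2
    apply cauchy hr0
    · intro z hz
      have := near z s _ _ hz h1 h2
      exact hE z (by linarith [this.1, hr])
    · intro z hz
      have := near z s _ _ hz h1 h2
      exact hEb z (by linarith [this.1]) (by linarith [this.2])
  have hMr : 0 < M / r := by positivity
  have hMrr : 0 < M / r / r := by positivity
  have key : LD L (deriv L) (deriv (deriv L)) κ T B :=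
    { hL := fun s hs => (hL s (by linarith [hs.1, hr])).hasDerivAt
      hD := fun s hs => (hD s (by linarith [hs.1, hr])).hasDerivAt
      hE := fun s hs => ⟨_, (hE s (by linarith [hs.1, hr])).hasDerivAt,
        (hFb s (by linarith [hs.1]) (by linarith [hs.2])).trans (by linarith)⟩
      bD := fun s hs => (hDb s (by linarith [hs.1, hr]) (by linarith [hs.2])).trans (by linarith)
      bE := fun s hs => (hEb s (by linarith [hs.1]) (by linarith [hs.2])).trans (by linarith)
      z := by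
        have := hodd 0
        rw [neg_zero] at this
        linear_combination (1 / 2 : ℂ) * this
      zE := by
        have := hEodd 0
        rw [neg_zero] at this
        linear_combination (1 / 2 : ℂ) * this
      rL := fun σ _ => real_of L hconj σ
      rD := fun σ _ => real_of _ hDc σ
      rE := fun σ _ => real_of _ hEc σ
      iL := him }
  exact qbg_of key hB.le hκ.le hT.le n B le_rfl

end Pool.Agent.Q176.SL.QBA
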