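import Mathlib
import Pool.Agent.Q176.SL.TAC
import Pool.Agent.TH41.BL.ASME

/-!
# Project SL2, job SL-TA: approximate extension of the exponentials
-/

set_option autoImplicit false

open MeasureTheory Filter Topology

namespace Pool.Agent.Q176.SL.TA

open Pool.Agent.TH41.BL (QBG vS k4_left k4_trans S4_left S4_trans)
open Pool.Agent.Q167.SL
open Pool.Agent.Q176.SL.TAC

theorem ta : S_qba → S_expk → S_bsh → S_bdual → S_bseg → S_blan → S_ta := by
  intro hqba hexpk hbsh hbdual hbseg hblan η R σ P t h φ₀ a hd0 ht0 ha1 ha2 ε hε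
  have hη := h.eta_pos
  -- continuity on the imaginary axis
  have hIc : Continuous (fun φ : ℝ => (φ : ℂ) * Complex.I) := by fun_prop
  have hre : ∀ φ : ℝ, |((φ : ℂ) * Complex.I).re| < η := by intro φ; simpa using hη
  have cσ : Continuous (fun φ : ℝ => (deriv σ ((φ : ℂ) * Complex.I)).re) := by
    apply Complex.continuous_re.comp
    rw [continuous_iff_continuousAt]
    intro φ
    exact ContinuousAt.comp (f := fun φ : ℝ => (φ : ℂ) * Complex.I) (g := deriv σ)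
      (dσ_cont h _ (hre φ)) hIc.continuousAt
  have ct : Continuous (fun φ : ℝ => (t ((φ : ℂ) * Complex.I)).re) := by
    apply Complex.continuous_re.comp
    rw [continuous_iff_continuousAt]
    intro φ
    exact ContinuousAt.comp (f := fun φ : ℝ => (φ : ℂ) * Complex.I) (g := t)
      (h.dt _ (hre φ)).continuousAt hIc.continuousAt
  set p₀ : ℝ := (deriv σ (φ₀ * Complex.I)).re * (a - (t (φ₀ * Complex.I)).re) with hp₀
  have hp₀pos : 0 < p₀ := mul_pos hd0 (by linarith)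
  have hev : ∀ᶠ φ : ℝ in 𝓝 φ₀, 0 < (deriv σ ((φ : ℂ) * Complex.I)).re ∧
      p₀ / 2 < (deriv σ ((φ : ℂ) * Complex.I)).re * (a - (t ((φ : ℂ) * Complex.I)).re) := by
    have h1 := (cσ.tendsto φ₀).eventually_const_lt hd0
    have h2 := ((cσ.mul (continuous_const.sub ct)).tendsto φ₀).eventually_const_lt
      (show p₀ / 2 < _ from by
        have : p₀ / 2 < p₀ := by linarith
        exact this)
    exact h1.and h2
  obtain ⟨ρ₁, hρ₁, hball⟩ := Metric.eventually_nhds_iff.mp hev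
  set ρ : ℝ := min ρ₁ 1 with hρ
  have hρ0 : 0 < ρ := lt_min hρ₁ one_pos
  set T : ℝ := |φ₀| + 3 with hT
  have hT0 : 0 < T := by positivity
  obtain ⟨C, κ, hC, hκ, hκ2, HQ⟩ := qk hqba h T hT0
  set εg : ℝ := min 1 (ε / (2 * η ^ 2)) with hεg
  have hεg0 : 0 < εg := lt_min one_pos (by positivity)
  have hεg1 : εg * η ^ 2 ≤ ε / 2 := by
    calc εg * η ^ 2 ≤ ε / (2 * η ^ 2) * η ^ 2 := by
          gcongr
          exact min_le_right _ _
      _ = ε / 2 := by field_simp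
  obtain ⟨c₁, hc₁, H1⟩ := k4_left T C κ hT0 hC hκ hκ2 εg 0 (p₀ / 2) 1 hεg0 (by simp)
    (by positivity) one_pos
  obtain ⟨⟨c₂, hc₂, hc₂η, H2⟩, H3⟩ := hbseg hbsh η R σ P t h T εg 1 hT0 hεg0 one_pos
  set c : ℝ := min c₁ c₂ with hc
  have hc0 : 0 < c := lt_min hc₁ hc₂
  have hcη : c < η := lt_of_le_of_lt (min_le_right _ _) hc₂η
  obtain ⟨e₁, he₁, n₁, H1'⟩ := H1 c hc0 (min_le_left _ _)
  obtain ⟨e₂, he₂, n₂, H2'⟩ := H2 c hc0 (min_le_right _ _)
  set e : ℝ := min e₁ e₂ with he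
  have he0 : 0 < e := lt_min he₁ he₂
  refine ⟨ρ, e / 4, hρ0, by positivity, ?_⟩
  intro ε₂ r hε₂ hr0 hr1
  obtain ⟨n₃, H3'⟩ := H3 (min ε₂ (e / 8)) (lt_min hε₂ (by positivity))
  obtain ⟨n₄, H4⟩ := hbdual hexpk hbsh η R σ P t h εg (ε / 2) r hεg0 (by positivity) hr0 hr1
  obtain ⟨M, hM⟩ := h.bd (η / 2) (by positivity) (by linarith)
  obtain ⟨n₅, H5⟩ := lan_step hblan e (1 - a) (1 + M ^ 2) he0 (by linarith)
  obtain ⟨n₆, H6⟩ := exp_cmp e (e / 4) 2 1 (by linarith) one_pos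
  refine ⟨n₁ + n₂ + n₃ + n₄ + n₅ + n₆ + 1, ?_⟩
  intro n hn φ hφ
  have hn0 : 0 < n := by omega
  -- the pole
  have hφ1 : |φ - φ₀| < ρ₁ := lt_of_lt_of_le hφ (min_le_left _ _)
  have hφ2 : |φ - φ₀| < 1 := lt_of_lt_of_le hφ (min_le_right _ _)
  have hφT : |φ| ≤ T - 1 := by
    have : |φ| ≤ |φ₀| + |φ - φ₀| := by
      calc |φ| = |φ₀ + (φ - φ₀)| := by ring_nf
        _ ≤ _ := abs_add_le _ _
    linarith
  obtain ⟨hp1, hp2⟩ := hball (y := φ) (by rwa [Real.dist_eq])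
  -- the test function
  obtain ⟨u₁, u₂, hu₁, hu₂, hu₂c, hub⟩ := H3' n (by omega) 0 φ c (by simp) hc0 hcη
  set z : ℂ := Complex.exp (-(n * P (φ * Complex.I))) with hz
  have hz1 : ‖z‖ = 1 := norm_expP h n φ
  set ξ : ℝ := (σ (φ * Complex.I)).im with hξ
  set E : ℝ → ℂ := fun τ => Complex.exp (((n * ξ * τ : ℝ) : ℂ) * Complex.I) with hE
  have hξM : |ξ| ≤ M := (Complex.abs_im_le_norm _).trans (hM _ (by simp; linarith)).1
  have hEn : ∀ τ, ‖E τ‖ = 1 := fun τ => Complex.norm_exp_ofReal_mul_I _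
  have hEd : ∀ τ : ℝ, HasDerivAt E (((n * ξ : ℝ) : ℂ) * Complex.I * E τ) τ := by
    intro τ
    have h1 : HasDerivAt (fun τ : ℝ => (((n * ξ * τ : ℝ) : ℂ) * Complex.I))
        (((n * ξ : ℝ) : ℂ) * Complex.I) τ := by
      have h2 : HasDerivAt (fun τ : ℝ => n * ξ * τ) (n * ξ) τ := by
        simpa using (hasDerivAt_id τ).const_mul (n * ξ)
      exact h2.ofReal_comp.mul_const Complex.I
    have h3 := h1.cexp
    have e4 : ((n * ξ : ℝ) : ℂ) * Complex.I * E τ =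
        Complex.exp (((n * ξ * τ : ℝ) : ℂ) * Complex.I) * (((n * ξ : ℝ) : ℂ) * Complex.I) :=
      mul_comm _ _
    rw [e4]
    exact h3
  -- the main estimate
  have hmain : ∀ τ ∈ Set.Icc a 1, ‖z * tf σ P n εg 0 c φ τ - E τ‖ ≤ 2 * Real.exp (-e * n) := by
    intro τ hτ
    have hτ1 : |τ| ≤ 1 := abs_le.mpr ⟨by linarith [hτ.1], hτ.2⟩
    obtain ⟨g, hQ⟩ := HQ τ hτ1 n hn0
    have h1 := (H1' n (by omega) _ _ _ _ hQ φ hφT).1 (by
      rw [zero_add]
      refine hp2.le.trans ?_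
      gcongr
      exact hτ.1)
    have h2 := H2' n (by omega) 0 φ τ (by simp) hφT hτ1
    have h3 : ‖tf σ P n εg 0 c φ τ -
        Complex.exp (n * (σ (φ * Complex.I) * τ + P (φ * Complex.I)))‖ ≤
        2 * Real.exp (-e * n) := by
      have e1 : Real.exp (-e₁ * n) ≤ Real.exp (-e * n) := by
        apply Real.exp_le_exp.mpr
        have : e ≤ e₁ := min_le_left _ _
        have hn' : (0 : ℝ) ≤ n := Nat.cast_nonneg n
        nlinarith
      have e2 : Real.exp (-e₂ * n) ≤ Real.exp (-e * n) := by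
        apply Real.exp_le_exp.mpr
        have : e ≤ e₂ := min_le_right _ _
        have hn' : (0 : ℝ) ≤ n := Nat.cast_nonneg n
        nlinarith
      calc _ ≤ ‖tf σ P n εg 0 c φ τ -
            vS (fun s => Complex.exp (n * (σ s * τ + P s))) T n εg 0 c φ‖ +
            ‖vS (fun s => Complex.exp (n * (σ s * τ + P s))) T n εg 0 c φ -
            Complex.exp (n * (σ (φ * Complex.I) * τ + P (φ * Complex.I)))‖ := norm_sub_le_norm_sub_add_norm_sub _ _ _
        _ ≤ Real.exp (-e₂ * n) + Real.exp (-e₁ * n) := add_le_add h2 h1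
        _ ≤ 2 * Real.exp (-e * n) := by linarith
    have h4 : z * tf σ P n εg 0 c φ τ - E τ = z * (tf σ P n εg 0 c φ τ -
        Complex.exp (n * (σ (φ * Complex.I) * τ + P (φ * Complex.I)))) := by
      rw [mul_sub, Q_im h n φ τ]
    rw [h4, norm_mul, hz1, one_mul]
    exact h3
  refine ⟨fun τ => z * tf σ P n εg 0 c φ τ, fun τ => z * u₁ τ, ?_, ?_, ?_, ?_, ?_⟩
  · intro τ
    exact (hu₁ τ).const_mul z
  · have : Continuous u₁ := continuous_iff_continuousAt.mpr fun τ => (hu₂ τ).continuousAt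
    fun_prop
  · intro τ hτ
    constructor
    · have h1 := hmain τ hτ
      have h2 := H6 n (by omega)
      rw [one_mul] at h2
      exact h1.trans h2
    · have hf : ∀ τ, HasDerivAt (fun τ => z * tf σ P n εg 0 c φ τ - E τ)
          (z * u₁ τ - ((n * ξ : ℝ) : ℂ) * Complex.I * E τ) τ := fun τ =>
        ((hu₁ τ).const_mul z).fun_sub (hEd τ)
      have hf₁ : ∀ τ, HasDerivAt (fun τ => z * u₁ τ - ((n * ξ : ℝ) : ℂ) * Complex.I * E τ)
          (z * u₂ τ - ((n * ξ : ℝ) : ℂ) * Complex.I *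
            (((n * ξ : ℝ) : ℂ) * Complex.I * E τ)) τ := fun τ =>
        ((hu₂ τ).const_mul z).fun_sub ((hEd τ).const_mul _)
      refine H5 n (by omega) a 1 _ _ _ le_rfl hf hf₁ hmain ?_ τ hτ
      intro τ hτ
      have hτ1 : |τ| ≤ 1 := abs_le.mpr ⟨by linarith [hτ.1], hτ.2⟩
      have h1 := (hub τ hτ1).2.2
      have h2 : Real.exp (min ε₂ (e / 8) * n) ≤ Real.exp (e / 8 * n) := by
        apply Real.exp_le_exp.mpr
        have := min_le_right ε₂ (e / 8)
        gcongr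
      have h3 : ‖((n * ξ : ℝ) : ℂ) * Complex.I * (((n * ξ : ℝ) : ℂ) * Complex.I * E τ)‖ ≤
          M ^ 2 * ((n : ℝ) + 1) ^ 2 := by
        rw [norm_mul, norm_mul, norm_mul, norm_mul, hEn, Complex.norm_I, Complex.norm_real,
          Real.norm_eq_abs, abs_mul, abs_of_nonneg (Nat.cast_nonneg n : (0 : ℝ) ≤ n)]
        calc (n : ℝ) * |ξ| * 1 * (n * |ξ| * 1 * 1) = |ξ| ^ 2 * (n : ℝ) ^ 2 := by ring
          _ ≤ M ^ 2 * ((n : ℝ) + 1) ^ 2 := by
              gcongr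
              linarith
      have h4 : (1 : ℝ) ≤ ((n : ℝ) + 1) ^ 2 := by
        have : (0 : ℝ) ≤ n := Nat.cast_nonneg n
        nlinarith
      have h5 : (1 : ℝ) ≤ Real.exp (e / 8 * n) := Real.one_le_exp (by positivity)
      calc ‖z * u₂ τ - ((n * ξ : ℝ) : ℂ) * Complex.I * (((n * ξ : ℝ) : ℂ) * Complex.I * E τ)‖
          ≤ ‖z * u₂ τ‖ + ‖((n * ξ : ℝ) : ℂ) * Complex.I *
              (((n * ξ : ℝ) : ℂ) * Complex.I * E τ)‖ := norm_sub_le _ _
        _ ≤ Real.exp (e / 8 * n) + M ^ 2 * ((n : ℝ) + 1) ^ 2 := by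
            rw [norm_mul, hz1, one_mul]
            exact add_le_add (h1.trans h2) h3
        _ ≤ ((n : ℝ) + 1) ^ 2 * Real.exp (e / 8 * n) +
              M ^ 2 * ((n : ℝ) + 1) ^ 2 * Real.exp (e / 8 * n) := by
            apply add_le_add
            · exact le_mul_of_one_le_left (Real.exp_pos _).le h4
            · exact le_mul_of_one_le_right (by positivity) h5
        _ = (1 + M ^ 2) * ((n : ℝ) + 1) ^ 2 * Real.exp (e / 8 * n) := by ring
  · intro τ hτ
    have hτ1 : |τ| ≤ 1 := abs_le.mpr hτ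
    rw [norm_mul, hz1, one_mul]
    refine (hub τ hτ1).1.trans ?_
    apply Real.exp_le_exp.mpr
    have := min_le_left ε₂ (e / 8)
    gcongr
  · apply Bd_mul hz1
    refine Bd_mono (Real.exp_pos _) ?_ (H4 n (by omega) 0 φ c hc0 hcη)
    apply Real.exp_le_exp.mpr
    have hn' : (0 : ℝ) ≤ n := Nat.cast_nonneg n
    rw [abs_zero, zero_mul, add_zero]
    have : -R + ε / 2 + εg * η ^ 2 ≤ -(R - ε) := by linarith
    calc (n : ℝ) * (-R + ε / 2 + εg * η ^ 2) ≤ n * (-(R - ε)) := by gcongr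
      _ = -(n * (R - ε)) := by ring

end Pool.Agent.Q176.SL.TA
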